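import Pool.Agent.Q214.KK.Expect

set_option autoImplicit false
open MeasureTheory ProbabilityTheory Matrix Filter Topology

namespace Pool.Agent.Q214.KK

noncomputable section

lemma ev_log (c : ℝ) : ∀ᶠ n : ℕ in atTop, c * Real.log n ≤ √(n : ℝ) := by
  have h := (isLittleO_log_rpow_atTop (r := 1 / 2) (by norm_num)).tendsto_div_nhds_zero
  have h2 : Tendsto (fun x : ℝ => c * (Real.log x / x ^ ((1 : ℝ) / 2))) atTop (𝓝 (c * 0)) :=
    h.const_mul c
  rw [mul_zero] at h2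
  have h3 := (h2.comp tendsto_natCast_atTop_atTop).eventually (gt_mem_nhds zero_lt_one)
  filter_upwards [h3, eventually_gt_atTop 0] with n hn hn0
  have hn1 : (0 : ℝ) < n := by exact_mod_cast hn0
  have hs : 0 < √(n : ℝ) := Real.sqrt_pos.mpr hn1
  simp only [Function.comp] at hn
  rw [← Real.sqrt_eq_rpow, ← mul_div_assoc, div_lt_one hs] at hn
  exact hn.le

/-- The noise level. -/
theorem noise (k l : ℕ) (hk : 1 ≤ k) (hl : k ≤ l) : ∀ᶠ n : ℕ in atTop,
    EL n l (2 * k) 0 ≤ 2 * √(Real.exp 8 * (4 * ((l.choose k : ℝ) *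
      (Real.exp 1 * (2 * (n : ℝ)) ^ k)) * ((l : ℝ) / k))) := by
  have hl0 : (0 : ℝ) < l := by exact_mod_cast (lt_of_lt_of_le hk hl)
  have hk0 : (0 : ℝ) < k := by exact_mod_cast hk
  have hlog : Tendsto (fun n : ℕ => Real.log (n : ℝ)) atTop atTop :=
    Real.tendsto_log_atTop.comp tendsto_natCast_atTop_atTop
  filter_upwards [ev_log ((k : ℝ) * l / 2), hlog.eventually_ge_atTop (8 / (l : ℝ)),
    eventually_ge_atTop (l + 1)] with n h1 h2 h3
  have hn0 : (0 : ℝ) < n := by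
    have : 0 < n := by omega
    exact_mod_cast this
  have hx : (1 : ℝ) ≤ (l : ℝ) / 8 * Real.log n := by
    rw [div_le_iff₀ hl0] at h2
    linarith
  obtain ⟨j, hj1, hj2⟩ := exists_nat_pow_near hx (one_lt_two (α := ℝ))
  set p : ℕ := 2 ^ (j + 1) with hp
  have hpR : (p : ℝ) = 2 ^ (j + 1) := by rw [hp]; push_cast; ring
  have hp1 : (l : ℝ) / 8 * Real.log n ≤ p := by rw [hpR]; exact hj2.le
  have hp2 : (p : ℝ) ≤ (l : ℝ) / 4 * Real.log n := by
    rw [hpR, pow_succ]; linarith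
  -- the weight
  have hw : Real.exp (2 * p / l) ≤ √(n : ℝ) := by
    have : (2 * (p : ℝ) / l) ≤ Real.log n / 2 := by
      rw [div_le_div_iff₀ hl0 (by norm_num)]
      linarith
    calc Real.exp (2 * p / l) ≤ Real.exp (Real.log n / 2) := Real.exp_le_exp.mpr this
      _ = √(n : ℝ) := by
        rw [Real.exp_half, Real.exp_log hn0]
  have hD : DD n l k p ≤ (l.choose k : ℝ) * (Real.exp 1 * (2 * (n : ℝ)) ^ k) := by
    unfold DD
    apply mul_le_mul_of_nonneg_left _ (Nat.cast_nonneg _)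
    apply mul_le_mul_of_nonneg_left _ (Real.exp_pos _).le
    apply pow_le_pow_left₀ (by positivity)
    have h4 : ((2 * k * p : ℕ) : ℝ) ≤ √(n : ℝ) := by
      push_cast
      refine le_trans ?_ h1
      nlinarith
    have h5 : Real.exp (2 * p / l) * ((2 * k * p : ℕ) : ℝ) ≤ √(n : ℝ) * √(n : ℝ) :=
      mul_le_mul hw h4 (Nat.cast_nonneg _) (Real.sqrt_nonneg _)
    rw [Real.mul_self_sqrt hn0.le] at h5
    linarith
  set D' : ℝ := (l.choose k : ℝ) * (Real.exp 1 * (2 * (n : ℝ)) ^ k) with hD'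
  have hc0 : (0 : ℝ) < (l.choose k : ℝ) := by exact_mod_cast Nat.choose_pos hl
  have hD'0 : 0 < D' := by rw [hD']; positivity
  set a : ℝ := √(Real.exp 8 * (4 * D' * ((l : ℝ) / k))) with ha
  have ha0 : 0 < a := by
    rw [ha]
    apply Real.sqrt_pos.mpr
    positivity
  have ha2 : a ^ 2 = Real.exp 8 * (4 * D' * ((l : ℝ) / k)) := by
    rw [ha, Real.sq_sqrt (by positivity)]
  apply EL_upper (by omega) (2 * k) (j + 1) a ha0
  intro I
  have hq : 2 ^ (j + 1 + 1) = 2 * p := by rw [hp]; ring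
  rw [hq]
  have hF := F_diag_le k p hk (by omega) (by omega) I
  refine hF.trans ?_
  have hN : (n.choose l : ℝ) ≤ Real.exp 8 ^ p := by
    have e1 : (n.choose l : ℝ) ≤ (n : ℝ) ^ l := by
      exact_mod_cast Nat.choose_le_pow n l
    refine e1.trans ?_
    rw [← Real.exp_nat_mul]
    have e2 : (n : ℝ) ^ l = Real.exp (l * Real.log n) := by
      rw [Real.exp_nat_mul, Real.exp_log hn0]
    rw [e2]
    apply Real.exp_le_exp.mpr
    linarith
  have hN0 : (0 : ℝ) < (n.choose l : ℝ) := by exact_mod_cast Nat.choose_pos (by omega)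
  rw [le_div_iff₀ hN0, pow_mul, ha2, mul_pow (Real.exp 8), mul_comm]
  apply mul_le_mul hN _ (by have := DD_nonneg n l k p; positivity) (by positivity)
  apply pow_le_pow_left₀ (by have := DD_nonneg n l k p; positivity)
  have := mul_le_mul_of_nonneg_left hD (by norm_num : (0 : ℝ) ≤ 4)
  exact mul_le_mul_of_nonneg_right this (by positivity)

lemma choose_lower (m k : ℕ) (x : ℝ) (hx : 0 ≤ x) (h : x + k ≤ (m : ℝ) + 1) :
    x ^ k / k.factorial ≤ (m.choose k : ℝ) := by
  have h1 : (m + 1 - k) ^ k ≤ m.descFactorial k := Nat.pow_sub_le_descFactorial m k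
  rw [Nat.descFactorial_eq_factorial_mul_choose] at h1
  have h2 : x ≤ ((m + 1 - k : ℕ) : ℝ) := by
    have hkm : (k : ℝ) ≤ ((m + 1 : ℕ) : ℝ) := by push_cast; linarith
    have hkm' : k ≤ m + 1 := by exact_mod_cast hkm
    rw [Nat.cast_sub hkm']
    push_cast
    linarith
  have h3 : x ^ k ≤ (k.factorial : ℝ) * (m.choose k : ℝ) := by
    refine (pow_le_pow_left₀ hx h2 k).trans ?_
    exact_mod_cast h1
  rw [div_le_iff₀ (by exact_mod_cast Nat.factorial_pos k)]
  linarith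

/-- The constant. -/
def c1 (k : ℕ) : ℝ :=
  1 / (2 ^ k * k.factorial * (2 * √(Real.exp 8 * (4 * (Real.exp 1 * 2 ^ k)) * (1 / k))))

lemma c1_pos (k : ℕ) (hk : 1 ≤ k) : 0 < c1 k := by
  have hk0 : (0 : ℝ) < k := by exact_mod_cast hk
  unfold c1
  have : 0 < √(Real.exp 8 * (4 * (Real.exp 1 * 2 ^ k)) * (1 / k)) :=
    Real.sqrt_pos.mpr (by positivity)
  positivity

theorem ratio_lower (k l : ℕ) (hk : 1 ≤ k) (hl : k ≤ l) (m : ℝ) (hm : 0 ≤ m) :
    ∀ᶠ n : ℕ in atTop, c1 k * m * √((l.choose k : ℝ) / l)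
      ≤ EL n l (2 * k) (m * (n : ℝ) ^ (-((2 * k : ℕ) : ℝ) / 4)) / EL n l (2 * k) 0 := by
  have hl0 : (0 : ℝ) < l := by exact_mod_cast (lt_of_lt_of_le hk hl)
  have hk0 : (0 : ℝ) < k := by exact_mod_cast hk
  filter_upwards [noise k l hk hl, eventually_ge_atTop (2 * (l + k) + 1)] with n h1 h2
  have hn0 : (0 : ℝ) < n := by
    have : 0 < n := by omega
    exact_mod_cast this
  have hpos := EL_zero_pos (n := n) k hk hl (by omega)
  have hlow := EL_lower (n := n) (l := l) (by omega) k (m * (n : ℝ) ^ (-((2 * k : ℕ) : ℝ) / 4))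
    (by positivity)
  have hch : ((n : ℝ) / 2) ^ k / k.factorial ≤ ((n - l).choose k : ℝ) := by
    apply choose_lower _ _ _ (by positivity)
    have : ((n - l : ℕ) : ℝ) = (n : ℝ) - l := by
      rw [Nat.cast_sub (by omega)]
    rw [this]
    have h3 : (2 * ((l : ℝ) + k) + 1) ≤ n := by exact_mod_cast h2
    linarith
  have hpw : (n : ℝ) ^ (-((2 * k : ℕ) : ℝ) / 4) * √((n : ℝ) ^ k) = 1 := by
    rw [Real.sqrt_eq_rpow, ← Real.rpow_natCast, ← Real.rpow_mul hn0.le, ← Real.rpow_add hn0]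
    have : (-((2 * k : ℕ) : ℝ) / 4 + (k : ℝ) * (1 / 2)) = 0 := by push_cast; ring
    rw [this, Real.rpow_zero]
  set x := (n : ℝ) ^ (-((2 * k : ℕ) : ℝ) / 4) with hxdef
  set s := √((n : ℝ) ^ k) with hs
  have hs2 : s * s = (n : ℝ) ^ k := Real.mul_self_sqrt (by positivity)
  have hs0 : 0 < s := Real.sqrt_pos.mpr (by positivity)
  have hx0 : 0 < x := by positivity
  set C : ℝ := (l.choose k : ℝ) with hC
  have hc0 : (0 : ℝ) < C := by rw [hC]; exact_mod_cast Nat.choose_pos hl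
  set y := √C with hy
  have hy0 : 0 < y := Real.sqrt_pos.mpr hc0
  have hy2 : y * y = C := Real.mul_self_sqrt hc0.le
  set z := √(l : ℝ) with hz
  have hz0 : 0 < z := Real.sqrt_pos.mpr hl0
  set G := √(Real.exp 8 * (4 * (Real.exp 1 * 2 ^ k)) * (1 / k)) with hG
  have hG0 : 0 < G := Real.sqrt_pos.mpr (by positivity)
  have hnoise : √(Real.exp 8 * (4 * (C * (Real.exp 1 * (2 * (n : ℝ)) ^ k)) * ((l : ℝ) / k)))
      = G * y * z * s := by
    rw [hG, hy, hz, hs, ← Real.sqrt_mul (by positivity), ← Real.sqrt_mul (by positivity),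
      ← Real.sqrt_mul (by positivity)]
    congr 1
    rw [mul_pow]
    ring
  rw [hnoise] at h1
  have hyz : √(C / l) = y / z := by rw [Real.sqrt_div hc0.le]
  rw [hyz]
  have hA : m * s * C / (2 ^ k * k.factorial) ≤ EL n l (2 * k) (m * x) := by
    refine le_trans ?_ hlow
    have hf : (0 : ℝ) < k.factorial := by exact_mod_cast Nat.factorial_pos k
    calc m * s * C / (2 ^ k * k.factorial)
        = m * (x * s) * s * C / (2 ^ k * k.factorial) := by rw [hpw]; ring
      _ = m * x * (C * (((n : ℝ) / 2) ^ k / k.factorial)) := by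
          rw [div_pow, ← hs2]
          field_simp
      _ ≤ m * x * (C * ((n - l).choose k : ℝ)) := by
          apply mul_le_mul_of_nonneg_left _ (by positivity)
          exact mul_le_mul_of_nonneg_left hch hc0.le
  rw [le_div_iff₀ hpos]
  have hf : (0 : ℝ) < k.factorial := by exact_mod_cast Nat.factorial_pos k
  have hcc := c1_pos k hk
  calc c1 k * m * (y / z) * EL n l (2 * k) 0
      ≤ c1 k * m * (y / z) * (2 * (G * y * z * s)) :=
        mul_le_mul_of_nonneg_left h1 (by positivity)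
    _ = m * s * C / (2 ^ k * k.factorial) := by
        unfold c1
        rw [← hG, ← hy2]
        field_simp
    _ ≤ _ := hA

/-- The final constant. -/
def c2 (k : ℕ) : ℝ := c1 k / √((k : ℝ) ^ k * k.factorial)

lemma c2_pos (k : ℕ) (hk : 1 ≤ k) : 0 < c2 k := by
  have hk0 : (0 : ℝ) < k := by exact_mod_cast hk
  have hf : (0 : ℝ) < k.factorial := by exact_mod_cast Nat.factorial_pos k
  unfold c2
  have := c1_pos k hk
  have : 0 < √((k : ℝ) ^ k * k.factorial) := Real.sqrt_pos.mpr (by positivity)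
  positivity

lemma sqrt_lower (k l : ℕ) (hk : 1 ≤ k) (hl : k ≤ l) :
    (l : ℝ) ^ (((k : ℝ) - 1) / 2) / √((k : ℝ) ^ k * k.factorial) ≤ √((l.choose k : ℝ) / l) := by
  have hl0 : (0 : ℝ) < l := by exact_mod_cast (lt_of_lt_of_le hk hl)
  have hk0 : (0 : ℝ) < k := by exact_mod_cast hk
  have hf : (0 : ℝ) < k.factorial := by exact_mod_cast Nat.factorial_pos k
  have h1 : ((l : ℝ) / k) ^ k / k.factorial ≤ (l.choose k : ℝ) := by
    apply choose_lower _ _ _ (by positivity)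
    have hk1 : (1 : ℝ) ≤ k := by exact_mod_cast hk
    have hlk : (k : ℝ) ≤ l := by exact_mod_cast hl
    have : (l : ℝ) / k ≤ (l : ℝ) + 1 - k := by
      rw [div_le_iff₀ hk0]
      nlinarith
    linarith
  have h2 : (l : ℝ) ^ (((k : ℝ) - 1) / 2) = √((l : ℝ) ^ k / l) := by
    rw [Real.sqrt_eq_rpow]
    have : (l : ℝ) ^ k / l = (l : ℝ) ^ ((k : ℝ) - 1) := by
      rw [Real.rpow_sub hl0, Real.rpow_natCast, Real.rpow_one]
    rw [this, ← Real.rpow_mul hl0.le]
    congr 1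
    ring
  rw [h2, ← Real.sqrt_div (by positivity)]
  apply Real.sqrt_le_sqrt
  calc (l : ℝ) ^ k / l / ((k : ℝ) ^ k * k.factorial)
      = (((l : ℝ) / k) ^ k / k.factorial) / l := by
        rw [div_pow]; field_simp
    _ ≤ _ := div_le_div_of_nonneg_right h1 hl0.le

theorem ratio_lower' (k l : ℕ) (hk : 1 ≤ k) (hl : k ≤ l) (m : ℝ) (hm : 0 ≤ m) :
    ∀ᶠ n : ℕ in atTop, c2 k * m * (l : ℝ) ^ (((k : ℝ) - 1) / 2)
      ≤ EL n l (2 * k) (m * (n : ℝ) ^ (-((2 * k : ℕ) : ℝ) / 4)) / EL n l (2 * k) 0 := by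
  filter_upwards [ratio_lower k l hk hl m hm] with n hn
  refine le_trans ?_ hn
  have h := sqrt_lower k l hk hl
  have hc := c1_pos k hk
  calc c2 k * m * (l : ℝ) ^ (((k : ℝ) - 1) / 2)
      = c1 k * m * ((l : ℝ) ^ (((k : ℝ) - 1) / 2) / √((k : ℝ) ^ k * k.factorial)) := by
        unfold c2; ring
    _ ≤ _ := mul_le_mul_of_nonneg_left h (by positivity)

end

end Pool.Agent.Q214.KK
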