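import Pool.Agent.Q214.KK.Comb

set_option autoImplicit false
open MeasureTheory ProbabilityTheory

namespace Pool.Agent.Q214.KK

noncomputable section

variable {n l : ℕ}

/-- The weight of an opening. -/
def DD (n l k p : ℕ) : ℝ :=
  (l.choose k : ℝ) * (Real.exp 1 *
    ((n : ℝ) + Real.exp (2 * p / l) * (2 * k * p : ℕ)) ^ k)

lemma DD_nonneg (n l k p : ℕ) : 0 ≤ DD n l k p := by unfold DD; positivity

theorem F_le (k p : ℕ) (hk : 1 ≤ k) (hl : 1 ≤ l) (hn : 0 < n) (m : ℕ) :
    ∀ (o : ℕ) (I J : Ix n l) (L : Finset (Fin n) → ℕ),
      tot L + 2 * o = m → tot L + o ≤ p → (∑ x, mu L x = 2 * k * tot L) →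
      F (2 * k) m I J L ≤ 2 ^ m * DD n l k p ^ o * ((l : ℝ) / k) ^ (tot L + o)
        * Real.exp ((tot L + o : ℕ) * (ex I.1 L : ℝ) / l) := by
  have hl0 : (0 : ℝ) < l := by exact_mod_cast hl
  have hk0 : (0 : ℝ) < k := by exact_mod_cast hk
  have hD := DD_nonneg n l k p
  induction m with
  | zero =>
    intro o I J L h1 h2 h3
    have ho : o = 0 := by omega
    have ht : tot L = 0 := by omega
    subst ho
    simp only [F, ht]
    simp only [pow_zero, add_zero, mul_one, Nat.cast_zero, zero_mul, zero_div, Real.exp_zero]
    split_ifs <;> norm_num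
  | succ m ih =>
    intro o I J L h1 h2 h3
    set D := DD n l k p with hDdef
    set c := tot L + o with hc
    set E : ℝ := Real.exp ((c : ℕ) * (ex I.1 L : ℝ) / l) with hE
    have hE0 : 0 < E := Real.exp_pos _
    set w : ℝ := Real.exp (2 * p / l) with hw
    have hw1 : 1 ≤ w := by
      rw [hw]
      apply Real.one_le_exp
      positivity
    -- the openings
    have hopen : ∑ K : Ix n l, (if (symmDiff I.1 K.1).card = 2 * k then
        F (2 * k) m K J (L + sg (symmDiff I.1 K.1)) else 0)
        ≤ 2 ^ m * D ^ o * ((l : ℝ) / k) ^ c * E := by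
      rcases Nat.eq_zero_or_pos o with ho | ho
      · have hz : ∑ K : Ix n l, (if (symmDiff I.1 K.1).card = 2 * k then
            F (2 * k) m K J (L + sg (symmDiff I.1 K.1)) else 0) = 0 := by
          apply Finset.sum_eq_zero
          intro K _
          split_ifs
          · apply F_zero_of_lt
            rw [tot_add]
            omega
          · rfl
        rw [hz]
        positivity
      · obtain ⟨o', rfl⟩ : ∃ o', o = o' + 1 := ⟨o - 1, by omega⟩
        have hterm : ∀ K : Ix n l, (if (symmDiff I.1 K.1).card = 2 * k then
            F (2 * k) m K J (L + sg (symmDiff I.1 K.1)) else 0)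
            ≤ (2 ^ m * D ^ o' * ((l : ℝ) / k) ^ c * E) *
              (if (symmDiff I.1 K.1).card = 2 * k then
                w ^ ((K.1 \ I.1).filter (fun x => 1 ≤ mu L x)).card else 0) := by
          intro K
          split_ifs with hK
          · have hs : ∑ x, mu (L + sg (symmDiff I.1 K.1)) x
                = 2 * k * tot (L + sg (symmDiff I.1 K.1)) := by
              simp_rw [mu_add]
              rw [Finset.sum_add_distrib, h3, tot_add, ← Finset.sum_filter,
                Finset.sum_const, smul_eq_mul, mul_one, Finset.filter_mem_eq_inter,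
                Finset.univ_inter, hK]
              ring
            have h4 := ih o' K J (L + sg (symmDiff I.1 K.1))
              (by rw [tot_add]; omega) (by rw [tot_add]; omega) hs
            have h5 : tot (L + sg (symmDiff I.1 K.1)) + o' = c := by
              rw [tot_add, hc]; ring
            rw [h5] at h4
            refine h4.trans ?_
            have h6 : Real.exp ((c : ℕ) * (ex K.1 (L + sg (symmDiff I.1 K.1)) : ℝ) / l)
                ≤ E * w ^ ((K.1 \ I.1).filter (fun x => 1 ≤ mu L x)).card := by
              rw [hE, hw, ← Real.exp_nat_mul, ← Real.exp_add]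
              apply Real.exp_le_exp.mpr
              have h7 := ex_open I.1 K.1 L
              set N := ((K.1 \ I.1).filter (fun x => 1 ≤ mu L x)).card
              have h8 : (ex K.1 (L + sg (symmDiff I.1 K.1)) : ℝ) ≤ ex I.1 L + 2 * N := by
                exact_mod_cast h7
              have h9 : (c : ℝ) ≤ p := by exact_mod_cast h2
              have hN : (0 : ℝ) ≤ N := Nat.cast_nonneg _
              have hc0 : (0 : ℝ) ≤ c := Nat.cast_nonneg _
              have h10 : (N : ℝ) * (2 * p / l) = (N * (2 * p)) / l := by ring
              rw [h10, ← add_div]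
              apply div_le_div_of_nonneg_right _ hl0.le
              nlinarith
            calc 2 ^ m * D ^ o' * ((l : ℝ) / k) ^ c *
                Real.exp ((c : ℕ) * (ex K.1 (L + sg (symmDiff I.1 K.1)) : ℝ) / l)
                ≤ 2 ^ m * D ^ o' * ((l : ℝ) / k) ^ c *
                  (E * w ^ ((K.1 \ I.1).filter (fun x => 1 ≤ mu L x)).card) := by
                  apply mul_le_mul_of_nonneg_left h6 (by positivity)
              _ = _ := by ring
          · simp
        refine (Finset.sum_le_sum fun K _ => hterm K).trans ?_
        rw [← Finset.mul_sum]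
        have hos := open_sum k I L w hw1 ((2 * k * p : ℕ) : ℝ) (by
          rw [h3]
          exact_mod_cast Nat.mul_le_mul_left _ (by omega)) hn
        have : (l.choose k : ℝ) * (Real.exp 1 * ((n : ℝ) + w * ((2 * k * p : ℕ) : ℝ)) ^ k)
            = D := by rw [hDdef, DD]
        rw [this] at hos
        calc (2 ^ m * D ^ o' * ((l : ℝ) / k) ^ c * E) * _
            ≤ (2 ^ m * D ^ o' * ((l : ℝ) / k) ^ c * E) * D :=
              mul_le_mul_of_nonneg_left hos (by positivity)
          _ = _ := by ring
    -- the closings
    have hclose : ∑ K : Ix n l, (if (symmDiff I.1 K.1).card = 2 * k then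
        (L (symmDiff I.1 K.1) : ℝ) * F (2 * k) m K J (L - sg (symmDiff I.1 K.1)) else 0)
        ≤ 2 ^ m * D ^ o * ((l : ℝ) / k) ^ c * E := by
      rcases Nat.eq_zero_or_pos (tot L) with ht | ht
      · have hz : ∑ K : Ix n l, (if (symmDiff I.1 K.1).card = 2 * k then
            (L (symmDiff I.1 K.1) : ℝ) * F (2 * k) m K J (L - sg (symmDiff I.1 K.1)) else 0)
            = 0 := by
          apply Finset.sum_eq_zero
          intro K _
          have : L (symmDiff I.1 K.1) = 0 := by
            unfold tot at ht
            exact Finset.sum_eq_zero_iff.mp ht _ (Finset.mem_univ _)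
          simp [this]
        rw [hz]
        positivity
      · obtain ⟨c', hc'⟩ : ∃ c', c = c' + 1 := ⟨c - 1, by omega⟩
        have hterm : ∀ K : Ix n l, (if (symmDiff I.1 K.1).card = 2 * k then
            (L (symmDiff I.1 K.1) : ℝ) * F (2 * k) m K J (L - sg (symmDiff I.1 K.1)) else 0)
            ≤ (2 ^ m * D ^ o * ((l : ℝ) / k) ^ c' * Real.exp ((c' : ℕ) * (ex I.1 L : ℝ) / l)) *
              ((if (symmDiff I.1 K.1).card = 2 * k then L (symmDiff I.1 K.1) else 0 : ℕ) : ℝ) := by
          intro K
          split_ifs with hK
          · by_cases h0 : L (symmDiff I.1 K.1) = 0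
            · simp [h0]
            · have hs : ∑ x, mu (L - sg (symmDiff I.1 K.1)) x
                  = 2 * k * tot (L - sg (symmDiff I.1 K.1)) := by
                have e1 : ∑ x, mu L x = ∑ x, mu (L - sg (symmDiff I.1 K.1)) x + 2 * k := by
                  simp_rw [mu_sub L _ h0]
                  rw [Finset.sum_add_distrib, ← Finset.sum_filter,
                    Finset.sum_const, smul_eq_mul, mul_one, Finset.filter_mem_eq_inter,
                    Finset.univ_inter, hK]
                have e2 := tot_sub L _ h0
                rw [h3, e2] at e1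
                have e3 : 2 * k * (tot (L - sg (symmDiff I.1 K.1)) + 1)
                    = 2 * k * tot (L - sg (symmDiff I.1 K.1)) + 2 * k := by ring
                omega
              have e2 := tot_sub L _ h0
              have h4 := ih o K J (L - sg (symmDiff I.1 K.1))
                (by omega) (by omega) hs
              have h5 : tot (L - sg (symmDiff I.1 K.1)) + o = c' := by omega
              rw [h5] at h4
              have h6 : Real.exp ((c' : ℕ) * (ex K.1 (L - sg (symmDiff I.1 K.1)) : ℝ) / l)
                  ≤ Real.exp ((c' : ℕ) * (ex I.1 L : ℝ) / l) := by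
                apply Real.exp_le_exp.mpr
                apply div_le_div_of_nonneg_right _ hl0.le
                apply mul_le_mul_of_nonneg_left _ (Nat.cast_nonneg _)
                exact_mod_cast ex_close I.1 K.1 L h0
              rw [mul_comm]
              apply mul_le_mul_of_nonneg_right _ (Nat.cast_nonneg _)
              exact h4.trans (mul_le_mul_of_nonneg_left h6 (by positivity))
          · simp
        refine (Finset.sum_le_sum fun K _ => hterm K).trans ?_
        rw [← Finset.mul_sum]
        have hcs := close_sum k I L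
        have hcs' : (k : ℝ) * ∑ K : Ix n l, ((if (symmDiff I.1 K.1).card = 2 * k then
            L (symmDiff I.1 K.1) else 0 : ℕ) : ℝ) ≤ (l : ℝ) + ex I.1 L := by
          exact_mod_cast hcs
        have h7 : ∑ K : Ix n l, ((if (symmDiff I.1 K.1).card = 2 * k then
            L (symmDiff I.1 K.1) else 0 : ℕ) : ℝ) ≤ (l : ℝ) / k * Real.exp (ex I.1 L / l) := by
          have h8 : (1 : ℝ) + ex I.1 L / l ≤ Real.exp (ex I.1 L / l) := by
            rw [add_comm]; exact Real.add_one_le_exp _
          have h9 : ((l : ℝ) + ex I.1 L) = l * (1 + ex I.1 L / l) := by field_simp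
          rw [h9] at hcs'
          have h10 : ∑ K : Ix n l, ((if (symmDiff I.1 K.1).card = 2 * k then
            L (symmDiff I.1 K.1) else 0 : ℕ) : ℝ) ≤ (l * (1 + ex I.1 L / l)) / k := by
            rw [le_div_iff₀ hk0]
            linarith
          refine h10.trans ?_
          rw [mul_div_right_comm]
          exact mul_le_mul_of_nonneg_left h8 (by positivity)
        calc (2 ^ m * D ^ o * ((l : ℝ) / k) ^ c' * Real.exp ((c' : ℕ) * (ex I.1 L : ℝ) / l)) * _
            ≤ (2 ^ m * D ^ o * ((l : ℝ) / k) ^ c' * Real.exp ((c' : ℕ) * (ex I.1 L : ℝ) / l)) *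
              ((l : ℝ) / k * Real.exp (ex I.1 L / l)) :=
              mul_le_mul_of_nonneg_left h7 (by positivity)
          _ = 2 ^ m * D ^ o * ((l : ℝ) / k) ^ c * E := by
              rw [hE, hc']
              have : ((c' + 1 : ℕ) : ℝ) * (ex I.1 L : ℝ) / l
                  = (c' : ℕ) * (ex I.1 L : ℝ) / l + ex I.1 L / l := by
                push_cast
                ring
              rw [this, Real.exp_add]
              ring
    have hsplit : F (2 * k) (m + 1) I J L =
        ∑ K : Ix n l, (if (symmDiff I.1 K.1).card = 2 * k then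
          F (2 * k) m K J (L + sg (symmDiff I.1 K.1)) else 0)
        + ∑ K : Ix n l, (if (symmDiff I.1 K.1).card = 2 * k then
          (L (symmDiff I.1 K.1) : ℝ) * F (2 * k) m K J (L - sg (symmDiff I.1 K.1)) else 0) := by
      simp only [F]
      rw [← Finset.sum_add_distrib]
      apply Finset.sum_congr rfl
      intro K _
      split_ifs <;> simp
    rw [hsplit]
    calc _ ≤ 2 ^ m * D ^ o * ((l : ℝ) / k) ^ c * E + 2 ^ m * D ^ o * ((l : ℝ) / k) ^ c * E :=
          add_le_add hopen hclose
      _ = _ := by ring

/-- The diagonal of the even power. -/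
theorem F_diag_le (k p : ℕ) (hk : 1 ≤ k) (hl : 1 ≤ l) (hn : 0 < n) (I : Ix n l) :
    F (2 * k) (2 * p) I I 0 ≤ (4 * DD n l k p * ((l : ℝ) / k)) ^ p := by
  have h := F_le k p hk hl hn (2 * p) p I I 0 (by simp [tot]) (by simp [tot]) (by simp [mu, tot])
  refine h.trans (le_of_eq ?_)
  have h1 : tot (0 : Finset (Fin n) → ℕ) = 0 := by simp [tot]
  have h2 : ex I.1 (0 : Finset (Fin n) → ℕ) = 0 := by simp [ex, mu]
  rw [h1, h2, mul_pow, mul_pow, pow_mul]
  norm_num

end

end Pool.Agent.Q214.KK
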