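import Pool.Agent.Q214.KK.Rec

set_option autoImplicit false
open MeasureTheory ProbabilityTheory

namespace Pool.Agent.Q214.KK

noncomputable section

variable {n l : ℕ}

/-- Multiplicity of a site. -/
def mu (L : Finset (Fin n) → ℕ) (x : Fin n) : ℕ := ∑ S, if x ∈ S then L S else 0

/-- Total number of open sets. -/
def tot (L : Finset (Fin n) → ℕ) : ℕ := ∑ S, L S

/-- The excess. -/
def ex (I : Finset (Fin n)) (L : Finset (Fin n) → ℕ) : ℕ :=
  ∑ x, if x ∈ I then mu L x - 1 else mu L x - 2

lemma mu_add (L : Finset (Fin n) → ℕ) (S : Finset (Fin n)) (x : Fin n) :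
    mu (L + sg S) x = mu L x + if x ∈ S then 1 else 0 := by
  unfold mu
  have : ∀ T, (if x ∈ T then (L + sg S) T else 0)
      = (if x ∈ T then L T else 0) + (if T = S then (if x ∈ S then 1 else 0) else 0) := by
    intro T
    by_cases hT : T = S
    · subst hT
      by_cases hx : x ∈ T <;> simp [hx]
    · simp [sg, hT]
  simp_rw [this]
  rw [Finset.sum_add_distrib]
  simp

lemma tot_add (L : Finset (Fin n) → ℕ) (S : Finset (Fin n)) :
    tot (L + sg S) = tot L + 1 := by
  unfold tot
  simp [sg, Finset.sum_add_distrib]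

lemma sub_add (L : Finset (Fin n) → ℕ) (S : Finset (Fin n)) (h : L S ≠ 0) :
    L - sg S + sg S = L := by
  funext T
  by_cases hT : T = S
  · subst hT
    simp only [Pi.add_apply, Pi.sub_apply, Pi.single_eq_same]
    omega
  · simp [sg, hT]

lemma mu_sub (L : Finset (Fin n) → ℕ) (S : Finset (Fin n)) (h : L S ≠ 0) (x : Fin n) :
    mu L x = mu (L - sg S) x + if x ∈ S then 1 else 0 := by
  conv_lhs => rw [← sub_add L S h]
  rw [mu_add]

lemma tot_sub (L : Finset (Fin n) → ℕ) (S : Finset (Fin n)) (h : L S ≠ 0) :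
    tot L = tot (L - sg S) + 1 := by
  conv_lhs => rw [← sub_add L S h]
  rw [tot_add]

lemma F_zero_of_lt (r m : ℕ) : ∀ (I J : Ix n l) (L : Finset (Fin n) → ℕ), m < tot L →
    F r m I J L = 0 := by
  induction m with
  | zero =>
    intro I J L h
    have : L ≠ 0 := by
      rintro rfl
      simp [tot] at h
    simp [F, this]
  | succ m ih =>
    intro I J L h
    simp only [F]
    apply Finset.sum_eq_zero
    intro K _
    split_ifs with hc
    · rw [ih K J _ (by rw [tot_add]; omega)]
      by_cases h0 : L (symmDiff I.1 K.1) = 0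
      · simp [h0]
      · rw [ih K J _ (by have := tot_sub L _ h0; omega)]
        simp
    · rfl

lemma ex_open (I K : Finset (Fin n)) (L : Finset (Fin n) → ℕ) :
    ex K (L + sg (symmDiff I K)) ≤ ex I L + 2 * ((K \ I).filter (fun x => 1 ≤ mu L x)).card := by
  have h1 : ((K \ I).filter (fun x => 1 ≤ mu L x)).card
      = ∑ x, if x ∈ K ∧ x ∉ I ∧ 1 ≤ mu L x then 1 else 0 := by
    rw [← Finset.sum_filter, Finset.sum_const, smul_eq_mul, mul_one]
    congr 1
    ext x
    simp [and_assoc]
  rw [h1, Finset.mul_sum]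
  unfold ex
  rw [← Finset.sum_add_distrib]
  apply Finset.sum_le_sum
  intro x _
  rw [mu_add]
  by_cases hI : x ∈ I <;> by_cases hK : x ∈ K <;> by_cases hm : 1 ≤ mu L x <;>
    simp [Finset.mem_symmDiff, hI, hK, hm] <;> omega

lemma ex_close (I K : Finset (Fin n)) (L : Finset (Fin n) → ℕ)
    (h : L (symmDiff I K) ≠ 0) :
    ex K (L - sg (symmDiff I K)) ≤ ex I L := by
  unfold ex
  apply Finset.sum_le_sum
  intro x _
  rw [mu_sub L _ h x]
  by_cases hI : x ∈ I <;> by_cases hK : x ∈ K <;>
    simp [Finset.mem_symmDiff, hI, hK]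

lemma card_parts (k : ℕ) (I K : Ix n l) (h : (symmDiff I.1 K.1).card = 2 * k) :
    (I.1 \ K.1).card = k ∧ (K.1 \ I.1).card = k := by
  have h1 : (I.1 \ K.1).card = (K.1 \ I.1).card :=
    Finset.card_sdiff_comm (by rw [I.2, K.2])
  have h2 : (symmDiff I.1 K.1).card = (I.1 \ K.1).card + (K.1 \ I.1).card := by
    rw [symmDiff_def, Finset.sup_eq_union, Finset.card_union_of_disjoint]
    exact disjoint_sdiff_sdiff
  omega

lemma close_sum (k : ℕ) (I : Ix n l) (L : Finset (Fin n) → ℕ) :
    k * ∑ K : Ix n l, (if (symmDiff I.1 K.1).card = 2 * k then L (symmDiff I.1 K.1) else 0)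
      ≤ l + ex I.1 L := by
  have h1 : ∑ x ∈ I.1, mu L x ≤ l + ex I.1 L := by
    have : ∑ x ∈ I.1, mu L x ≤ ∑ x ∈ I.1, (1 + (mu L x - 1)) :=
      Finset.sum_le_sum fun x _ => by omega
    refine this.trans ?_
    rw [Finset.sum_add_distrib]
    simp only [Finset.sum_const, smul_eq_mul, mul_one, I.2]
    apply Nat.add_le_add_left
    unfold ex
    rw [← Finset.sum_filter_add_sum_filter_not Finset.univ (fun x => x ∈ I.1)]
    refine le_trans ?_ (Nat.le_add_right _ _)
    rw [Finset.filter_mem_eq_inter, Finset.univ_inter]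
    apply le_of_eq
    apply Finset.sum_congr rfl
    intro x hx
    simp [hx]
  have h2 : ∑ x ∈ I.1, mu L x = ∑ S : Finset (Fin n), (S ∩ I.1).card * L S := by
    unfold mu
    rw [Finset.sum_comm]
    apply Finset.sum_congr rfl
    intro S _
    rw [← Finset.sum_filter, Finset.sum_const, smul_eq_mul, Finset.filter_mem_eq_inter,
      Finset.inter_comm]
  refine le_trans ?_ h1
  rw [h2, Finset.mul_sum]
  have h3 : ∀ K : Ix n l,
      k * (if (symmDiff I.1 K.1).card = 2 * k then L (symmDiff I.1 K.1) else 0)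
      ≤ ((symmDiff I.1 K.1) ∩ I.1).card * L (symmDiff I.1 K.1) := by
    intro K
    split_ifs with h
    · apply Nat.mul_le_mul_right
      have := (card_parts k I K h).1
      have h4 : (symmDiff I.1 K.1) ∩ I.1 = I.1 \ K.1 := by
        ext x
        simp [Finset.mem_symmDiff]
        tauto
      rw [h4, this]
    · simp
  refine (Finset.sum_le_sum fun K _ => h3 K).trans ?_
  have hinj : Function.Injective (fun K : Ix n l => symmDiff I.1 K.1) := by
    intro K K' hKK
    apply Subtype.ext
    exact symmDiff_right_injective I.1 hKK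
  rw [← Finset.sum_image (s := (Finset.univ : Finset (Ix n l)))
    (g := fun K : Ix n l => symmDiff I.1 K.1) (f := fun S => (S ∩ I.1).card * L S)
    (fun a _ b _ h => hinj h)]
  exact Finset.sum_le_sum_of_subset (Finset.subset_univ _)

lemma esymm_le (a : Fin n → ℝ) (ha : ∀ x, 0 ≤ a x) (B : ℝ) (hB : ∑ x, a x ≤ B) (hB0 : 0 < B)
    (k : ℕ) :
    ∑ N ∈ Finset.powersetCard k (Finset.univ : Finset (Fin n)), ∏ x ∈ N, a x
      ≤ Real.exp 1 * B ^ k := by
  have h1 : ∑ N ∈ Finset.powersetCard k (Finset.univ : Finset (Fin n)), ∏ x ∈ N, (a x / B)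
      ≤ Real.exp 1 := by
    calc ∑ N ∈ Finset.powersetCard k (Finset.univ : Finset (Fin n)), ∏ x ∈ N, (a x / B)
        ≤ ∑ N ∈ (Finset.univ : Finset (Fin n)).powerset, ∏ x ∈ N, (a x / B) := by
          apply Finset.sum_le_sum_of_subset_of_nonneg
          · intro N hN
            exact Finset.mem_powerset.mpr (Finset.mem_powersetCard.mp hN).1
          · intro N _ _
            exact Finset.prod_nonneg fun x _ => div_nonneg (ha x) hB0.le
      _ = ∏ x, (1 + a x / B) := by
          rw [Finset.prod_one_add]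
      _ ≤ ∏ x, Real.exp (a x / B) := by
          apply Finset.prod_le_prod
          · intro x _
            have := div_nonneg (ha x) hB0.le
            positivity
          · intro x _
            rw [add_comm]
            exact Real.add_one_le_exp _
      _ = Real.exp (∑ x, a x / B) := by rw [Real.exp_sum]
      _ ≤ Real.exp 1 := by
          apply Real.exp_le_exp.mpr
          rw [← Finset.sum_div]
          rw [div_le_one hB0]
          exact hB
  have h2 : ∑ N ∈ Finset.powersetCard k (Finset.univ : Finset (Fin n)), ∏ x ∈ N, a x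
      = (∑ N ∈ Finset.powersetCard k (Finset.univ : Finset (Fin n)), ∏ x ∈ N, (a x / B))
        * B ^ k := by
    rw [Finset.sum_mul]
    apply Finset.sum_congr rfl
    intro N hN
    rw [Finset.prod_div_distrib, Finset.prod_const, (Finset.mem_powersetCard.mp hN).2]
    field_simp
  rw [h2]
  exact mul_le_mul_of_nonneg_right h1 (by positivity)

lemma open_sum (k : ℕ) (I : Ix n l) (L : Finset (Fin n) → ℕ) (w : ℝ) (hw : 1 ≤ w)
    (u : ℝ) (hu : ((∑ x, mu L x : ℕ) : ℝ) ≤ u) (hn : 0 < n) :
    ∑ K : Ix n l, (if (symmDiff I.1 K.1).card = 2 * k then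
        w ^ ((K.1 \ I.1).filter (fun x => 1 ≤ mu L x)).card else 0)
      ≤ (l.choose k : ℝ) * (Real.exp 1 * ((n : ℝ) + w * u) ^ k) := by
  set a : Fin n → ℝ := fun x => if 1 ≤ mu L x then w else 1 with ha
  have ha0 : ∀ x, 0 ≤ a x := by
    intro x
    simp only [ha]
    split_ifs <;> linarith
  have hg : ∀ N : Finset (Fin n), w ^ (N.filter (fun x => 1 ≤ mu L x)).card = ∏ x ∈ N, a x := by
    intro N
    simp only [ha]
    rw [Finset.prod_ite]
    simp
  simp_rw [hg]
  rw [← Finset.sum_filter]
  have hinj : Set.InjOn (fun K : Ix n l => (I.1 \ K.1, K.1 \ I.1))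
      ((Finset.univ.filter fun K : Ix n l => (symmDiff I.1 K.1).card = 2 * k) : Set (Ix n l)) := by
    intro K _ K' _ hKK
    simp only [Prod.mk.injEq] at hKK
    apply Subtype.ext
    ext x
    have h1 := Finset.ext_iff.mp hKK.1 x
    have h2 := Finset.ext_iff.mp hKK.2 x
    simp only [Finset.mem_sdiff] at h1 h2
    tauto
  have hsum : ∑ K ∈ (Finset.univ.filter fun K : Ix n l => (symmDiff I.1 K.1).card = 2 * k),
      ∏ x ∈ K.1 \ I.1, a x
      = ∑ q ∈ (Finset.univ.filter fun K : Ix n l => (symmDiff I.1 K.1).card = 2 * k).image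
          (fun K : Ix n l => (I.1 \ K.1, K.1 \ I.1)), ∏ x ∈ q.2, a x := by
    rw [Finset.sum_image hinj]
  rw [hsum]
  have hsub : (Finset.univ.filter fun K : Ix n l => (symmDiff I.1 K.1).card = 2 * k).image
      (fun K : Ix n l => (I.1 \ K.1, K.1 \ I.1))
      ⊆ (Finset.powersetCard k I.1) ×ˢ (Finset.powersetCard k (Finset.univ : Finset (Fin n))) := by
    intro q hq
    simp only [Finset.mem_image, Finset.mem_filter, Finset.mem_univ, true_and] at hq
    obtain ⟨K, hK, rfl⟩ := hq
    have := card_parts k I K hK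
    simp only [Finset.mem_product, Finset.mem_powersetCard]
    exact ⟨⟨Finset.sdiff_subset, this.1⟩, Finset.subset_univ _, this.2⟩
  refine (Finset.sum_le_sum_of_subset_of_nonneg hsub
    (fun q _ _ => Finset.prod_nonneg fun x _ => ha0 x)).trans ?_
  rw [Finset.sum_product]
  simp only [Finset.sum_const, Finset.card_powersetCard, I.2, nsmul_eq_mul]
  apply mul_le_mul_of_nonneg_left _ (Nat.cast_nonneg _)
  have hu0 : 0 ≤ u := le_trans (Nat.cast_nonneg _) hu
  apply esymm_le a ha0
  · calc ∑ x, a x ≤ ∑ x, (1 + w * (mu L x : ℝ)) := by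
          apply Finset.sum_le_sum
          intro x _
          simp only [ha]
          split_ifs with h
          · have : (1 : ℝ) ≤ (mu L x : ℝ) := by exact_mod_cast h
            nlinarith
          · have : (0 : ℝ) ≤ (mu L x : ℝ) := Nat.cast_nonneg _
            nlinarith
      _ = (n : ℝ) + w * ((∑ x, mu L x : ℕ) : ℝ) := by
          rw [Finset.sum_add_distrib, ← Finset.mul_sum]
          simp
      _ ≤ (n : ℝ) + w * u := by
          have : w * ((∑ x, mu L x : ℕ) : ℝ) ≤ w * u := by
            apply mul_le_mul_of_nonneg_left hu (by linarith)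
          linarith
  · have : (0 : ℝ) < n := by exact_mod_cast hn
    have : 0 ≤ w * u := mul_nonneg (by linarith) hu0
    linarith

end

end Pool.Agent.Q214.KK
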