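import Mathlib

set_option autoImplicit false
set_option linter.unusedSectionVars false
open MeasureTheory ProbabilityTheory Matrix

namespace Pool.Agent.Q214.KK

noncomputable section

variable {ι : Type*} [Fintype ι] [DecidableEq ι]

/-- The largest eigenvalue of a real symmetric matrix, as the maximum of the quadratic form. -/
def lmax (A : Matrix ι ι ℝ) : ℝ :=
  sSup {t : ℝ | ∃ v : ι → ℝ, dotProduct v v = 1 ∧ t = dotProduct v (Matrix.mulVec A v)}

lemma abs_le_one_of_unit {v : ι → ℝ} (hv : dotProduct v v = 1) (i : ι) : |v i| ≤ 1 := by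
  have h1 : v i * v i ≤ dotProduct v v := by
    unfold dotProduct
    exact Finset.single_le_sum (f := fun i => v i * v i) (fun j _ => mul_self_nonneg _)
      (Finset.mem_univ i)
  rw [hv] at h1
  rw [abs_le]
  constructor <;> nlinarith

lemma quad_eq (A : Matrix ι ι ℝ) (v : ι → ℝ) :
    dotProduct v (Matrix.mulVec A v) = ∑ i, ∑ j, v i * (A i j * v j) := by
  unfold Matrix.mulVec dotProduct
  simp_rw [Finset.mul_sum]

lemma quad_le (A : Matrix ι ι ℝ) {v : ι → ℝ} (hv : dotProduct v v = 1) :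
    |dotProduct v (Matrix.mulVec A v)| ≤ ∑ i, ∑ j, |A i j| := by
  rw [quad_eq]
  refine (Finset.abs_sum_le_sum_abs _ _).trans (Finset.sum_le_sum fun i _ => ?_)
  refine (Finset.abs_sum_le_sum_abs _ _).trans (Finset.sum_le_sum fun j _ => ?_)
  rw [abs_mul, abs_mul]
  have h1 := abs_le_one_of_unit hv i
  have h2 := abs_le_one_of_unit hv j
  have h3 := abs_nonneg (A i j)
  have h4 := abs_nonneg (v i)
  have h5 := abs_nonneg (v j)
  calc |v i| * (|A i j| * |v j|) ≤ 1 * (|A i j| * 1) := by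
        apply mul_le_mul h1 _ (by positivity) (by norm_num)
        exact mul_le_mul_of_nonneg_left h2 h3
    _ = |A i j| := by ring

lemma bddAbove_quad (A : Matrix ι ι ℝ) :
    BddAbove {t : ℝ | ∃ v : ι → ℝ, dotProduct v v = 1 ∧
      t = dotProduct v (Matrix.mulVec A v)} := by
  refine ⟨∑ i, ∑ j, |A i j|, ?_⟩
  rintro t ⟨v, hv, rfl⟩
  exact (le_abs_self _).trans (quad_le A hv)

lemma le_lmax (A : Matrix ι ι ℝ) {v : ι → ℝ} (hv : dotProduct v v = 1) :
    dotProduct v (Matrix.mulVec A v) ≤ lmax A :=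
  le_csSup (bddAbove_quad A) ⟨v, hv, rfl⟩

lemma unit_single (i : ι) : dotProduct (Pi.single i 1 : ι → ℝ) (Pi.single i 1) = 1 := by
  simp

lemma nonempty_quad [Nonempty ι] (A : Matrix ι ι ℝ) :
    {t : ℝ | ∃ v : ι → ℝ, dotProduct v v = 1 ∧
      t = dotProduct v (Matrix.mulVec A v)}.Nonempty := by
  obtain ⟨i⟩ := (inferInstance : Nonempty ι)
  exact ⟨_, Pi.single i 1, unit_single i, rfl⟩

lemma abs_lmax_le [Nonempty ι] (A : Matrix ι ι ℝ) : |lmax A| ≤ ∑ i, ∑ j, |A i j| := by
  rw [abs_le]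
  constructor
  · obtain ⟨i⟩ := (inferInstance : Nonempty ι)
    have h1 := le_lmax A (unit_single i)
    have h2 := quad_le A (unit_single i)
    rw [abs_le] at h2
    exact h2.1.trans h1
  · apply csSup_le (nonempty_quad A)
    rintro t ⟨v, hv, rfl⟩
    exact (le_abs_self _).trans (quad_le A hv)

lemma continuous_lmax : Continuous (fun A : Matrix ι ι ℝ => lmax A) := by
  have hK : IsCompact {v : ι → ℝ | dotProduct v v = 1} := by
    rw [Metric.isCompact_iff_isClosed_bounded]
    constructor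
    · apply isClosed_eq _ continuous_const
      unfold dotProduct
      fun_prop
    · rw [isBounded_iff_forall_norm_le]
      refine ⟨1, ?_⟩
      intro v hv
      rw [pi_norm_le_iff_of_nonneg (by norm_num)]
      intro i
      exact abs_le_one_of_unit hv i
  have hc : Continuous (Function.uncurry
      (fun (A : Matrix ι ι ℝ) (v : ι → ℝ) => dotProduct v (Matrix.mulVec A v))) := by
    have : (Function.uncurry
      (fun (A : Matrix ι ι ℝ) (v : ι → ℝ) => dotProduct v (Matrix.mulVec A v)))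
      = fun q : Matrix ι ι ℝ × (ι → ℝ) => ∑ i, ∑ j, q.2 i * (q.1 i j * q.2 j) := by
      funext q
      rw [← quad_eq]
      rfl
    rw [this]
    apply continuous_finsetSum
    intro i _
    apply continuous_finsetSum
    intro j _
    have h1 : Continuous fun q : Matrix ι ι ℝ × (ι → ℝ) => q.1 i j :=
      (continuous_fst).matrix_elem i j
    have h2 : ∀ s : ι, Continuous fun q : Matrix ι ι ℝ × (ι → ℝ) => q.2 s := fun s =>
      (continuous_apply s).comp continuous_snd
    exact (h2 i).mul (h1.mul (h2 j))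
  have h := IsCompact.continuous_sSup
    (f := fun (A : Matrix ι ι ℝ) (v : ι → ℝ) => dotProduct v (Matrix.mulVec A v)) hK hc
  convert! h using 2 with A
  unfold lmax
  congr 1
  ext t
  constructor
  · rintro ⟨v, hv, rfl⟩
    exact ⟨v, hv, rfl⟩
  · rintro ⟨v, hv, rfl⟩
    exact ⟨v, hv, rfl⟩

lemma dot_symm {A : Matrix ι ι ℝ} (hA : A.IsSymm) (v w : ι → ℝ) :
    dotProduct v (Matrix.mulVec A w) = dotProduct (Matrix.mulVec A v) w := by
  rw [Matrix.dotProduct_mulVec]
  congr 1
  conv_lhs => rw [← hA.eq]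
  rw [Matrix.vecMul_transpose]

lemma cs (v w : ι → ℝ) : (dotProduct v w) ^ 2 ≤ dotProduct v v * dotProduct w w := by
  unfold dotProduct
  have h := Finset.sum_mul_sq_le_sq_mul_sq Finset.univ v w
  simpa [pow_two] using h

lemma symm_pow {A : Matrix ι ι ℝ} (hA : A.IsSymm) (m : ℕ) : (A ^ m).IsSymm := by
  unfold Matrix.IsSymm
  rw [Matrix.transpose_pow, hA.eq]

lemma quad_sq {A : Matrix ι ι ℝ} (hA : A.IsSymm) (v : ι → ℝ) :
    dotProduct v (Matrix.mulVec (A ^ 2) v)
      = dotProduct (Matrix.mulVec A v) (Matrix.mulVec A v) := by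
  rw [pow_two, ← Matrix.mulVec_mulVec, dot_symm hA]

lemma quad_pow {A : Matrix ι ι ℝ} (hA : A.IsSymm) {v : ι → ℝ} (hv : dotProduct v v = 1)
    (j : ℕ) : (dotProduct v (Matrix.mulVec A v)) ^ (2 ^ j)
      ≤ dotProduct v (Matrix.mulVec (A ^ (2 ^ j)) v) := by
  induction j with
  | zero => simp
  | succ j ih =>
    have h1 : (dotProduct v (Matrix.mulVec (A ^ (2 ^ j)) v)) ^ 2
        ≤ dotProduct v (Matrix.mulVec (A ^ (2 ^ (j + 1))) v) := by
      rw [pow_succ 2 j, pow_mul, quad_sq (symm_pow hA _)]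
      have := cs v (Matrix.mulVec (A ^ (2 ^ j)) v)
      rwa [hv, one_mul] at this
    have h2 : ((dotProduct v (Matrix.mulVec A v)) ^ (2 ^ j)) ^ 2
        ≤ (dotProduct v (Matrix.mulVec (A ^ (2 ^ j)) v)) ^ 2 := by
      cases j with
      | zero => simp
      | succ i =>
        have h0 : 0 ≤ (dotProduct v (Matrix.mulVec A v)) ^ (2 ^ (i + 1)) := by
          rw [pow_succ 2 i, pow_mul]
          positivity
        exact pow_le_pow_left₀ h0 ih 2
    calc (dotProduct v (Matrix.mulVec A v)) ^ (2 ^ (j + 1))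
        = ((dotProduct v (Matrix.mulVec A v)) ^ (2 ^ j)) ^ 2 := by rw [← pow_mul, pow_succ]
      _ ≤ _ := h2.trans h1

lemma quad_le_trace {A : Matrix ι ι ℝ} (hA : A.IsSymm) {v : ι → ℝ} (hv : dotProduct v v = 1)
    (j : ℕ) : (dotProduct v (Matrix.mulVec A v)) ^ (2 ^ (j + 1))
      ≤ Matrix.trace (A ^ (2 ^ (j + 1))) := by
  refine (quad_pow hA hv (j + 1)).trans ?_
  rw [pow_succ 2 j, pow_mul, quad_sq (symm_pow hA _)]
  set B := A ^ (2 ^ j) with hB
  have hBs : B.IsSymm := symm_pow hA _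
  have h1 : dotProduct (Matrix.mulVec B v) (Matrix.mulVec B v)
      ≤ ∑ i, ∑ s, B i s * B i s := by
    unfold dotProduct
    apply Finset.sum_le_sum
    intro i _
    have := cs (B i) v
    rw [hv, mul_one] at this
    unfold dotProduct at this
    rw [← pow_two]
    exact this
  refine h1.trans (le_of_eq ?_)
  unfold Matrix.trace
  apply Finset.sum_congr rfl
  intro i _
  rw [Matrix.diag_apply, pow_two, Matrix.mul_apply]
  apply Finset.sum_congr rfl
  intro s _
  rw [hBs.apply s i]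

lemma trace_nonneg {A : Matrix ι ι ℝ} (hA : A.IsSymm) (j : ℕ) :
    0 ≤ Matrix.trace (A ^ (2 ^ (j + 1))) := by
  rw [pow_succ 2 j, pow_mul]
  have hBs : (A ^ (2 ^ j)).IsSymm := symm_pow hA _
  unfold Matrix.trace
  apply Finset.sum_nonneg
  intro i _
  rw [Matrix.diag_apply, pow_two, Matrix.mul_apply]
  apply Finset.sum_nonneg
  intro s _
  rw [hBs.apply i s]
  exact mul_self_nonneg _

lemma lmax_le_trace [Nonempty ι] {A : Matrix ι ι ℝ} (hA : A.IsSymm) (j : ℕ) {a : ℝ}
    (ha : 0 < a) :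
    lmax A ≤ a + Matrix.trace (A ^ (2 ^ (j + 1))) / a ^ (2 ^ (j + 1) - 1) := by
  apply csSup_le (nonempty_quad A)
  rintro t ⟨v, hv, rfl⟩
  set t := dotProduct v (Matrix.mulVec A v) with ht
  have h1 := quad_le_trace hA hv j
  rw [← ht] at h1
  rcases le_or_gt t a with h | h
  · have := trace_nonneg hA j
    have : 0 ≤ Matrix.trace (A ^ (2 ^ (j + 1))) / a ^ (2 ^ (j + 1) - 1) := by positivity
    linarith
  · have h2 : t ≤ t ^ (2 ^ (j + 1)) / a ^ (2 ^ (j + 1) - 1) := by
      rw [le_div_iff₀ (by positivity)]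
      have hq : 2 ^ (j + 1) = (2 ^ (j + 1) - 1) + 1 := by
        have : 0 < 2 ^ (j + 1) := by positivity
        omega
      conv_rhs => rw [hq, pow_succ, mul_comm]
      apply mul_le_mul_of_nonneg_left _ (by linarith)
      exact pow_le_pow_left₀ ha.le h.le _
    have h3 : t ^ (2 ^ (j + 1)) / a ^ (2 ^ (j + 1) - 1)
        ≤ Matrix.trace (A ^ (2 ^ (j + 1))) / a ^ (2 ^ (j + 1) - 1) :=
      div_le_div_of_nonneg_right h1 (by positivity)
    linarith

end

end Pool.Agent.Q214.KK
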