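import Pool.Agent.Q214.KK.Bound
import Pool.Agent.Q214.KK.Lmax

set_option autoImplicit false
open MeasureTheory ProbabilityTheory Matrix

namespace Pool.Agent.Q214.KK

noncomputable section

variable {n l : ℕ}

/-- The expected largest eigenvalue of the Kikuchi matrix. -/
def EL (n l r : ℕ) (lam : ℝ) : ℝ := ∫ Z, lmax (Kik n l r lam Z) ∂(PG n)

lemma Kik_symm (r : ℕ) (lam : ℝ) (Z : Finset (Fin n) → ℝ) : (Kik n l r lam Z).IsSymm := by
  apply Matrix.IsSymm.ext
  intro I J
  simp only [Kik, Matrix.of_apply]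
  rw [symmDiff_comm]

lemma nonempty_Ix (h : l ≤ n) : Nonempty (Ix n l) := by
  obtain ⟨s, _, hs⟩ := Finset.exists_subset_card_eq
    (s := (Finset.univ : Finset (Fin n))) (n := l) (by simpa using h)
  exact ⟨⟨s, hs⟩⟩

lemma continuous_Kik (r : ℕ) (lam : ℝ) : Continuous (fun Z => Kik n l r lam Z) := by
  apply continuous_matrix
  intro I J
  simp only [Kik, Matrix.of_apply]
  split_ifs
  · exact continuous_const.add (continuous_apply _)
  · exact continuous_const

lemma integrable_coord (S : Finset (Fin n)) : Integrable (fun Z => Z S) (PG n) := by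
  have h := (measurePreserving_eval (fun _ : Finset (Fin n) => gaussianReal 0 1) S)
  have h1 : Integrable (fun x : ℝ => x) (gaussianReal 0 1) := by
    have := integrable_poly Polynomial.X
    simpa using this
  exact h.integrable_comp_of_integrable h1

lemma integral_coord (S : Finset (Fin n)) : ∫ Z, Z S ∂(PG n) = 0 := by
  have h := (measurePreserving_eval (fun _ : Finset (Fin n) => gaussianReal 0 1) S)
  have h1 : ∫ x : ℝ, x ∂(gaussianReal 0 1) = 0 := integral_id_gaussianReal
  rw [← h1, ← h.map_eq, integral_map (measurable_pi_apply S).aemeasurable (by fun_prop)]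
  rfl

lemma integral_abs_coord_pos (S : Finset (Fin n)) : 0 < ∫ Z, |Z S| ∂(PG n) := by
  have h := (measurePreserving_eval (fun _ : Finset (Fin n) => gaussianReal 0 1) S)
  have h0 : ∫ Z, |Z S| ∂(PG n) = ∫ x : ℝ, |x| ∂(gaussianReal 0 1) := by
    rw [← h.map_eq, integral_map (measurable_pi_apply S).aemeasurable (by fun_prop)]
    rfl
  rw [h0]
  have h1 : Integrable (fun x : ℝ => |x|) (gaussianReal 0 1) := by
    have := (integrable_poly Polynomial.X).abs
    simpa using this
  rw [integral_pos_iff_support_of_nonneg (fun x => abs_nonneg x) h1]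
  have h2 : Function.support (fun x : ℝ => |x|) = {0}ᶜ := by
    ext x; simp
  rw [h2]
  have h3 : NullSingletonClass (gaussianReal 0 1) :=
    nullSingletonClass_gaussianReal one_ne_zero
  rw [measure_compl (measurableSet_singleton _) (measure_ne_top _ _)]
  simp

lemma integrable_entry (r : ℕ) (lam : ℝ) (I J : Ix n l) :
    Integrable (fun Z => Kik n l r lam Z I J) (PG n) := by
  simp only [Kik, Matrix.of_apply]
  split_ifs
  · exact (integrable_const _).add (integrable_coord _)
  · exact integrable_const _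

lemma integral_entry (r : ℕ) (lam : ℝ) (I J : Ix n l) :
    ∫ Z, Kik n l r lam Z I J ∂(PG n) = if (symmDiff I.1 J.1).card = r then lam else 0 := by
  simp only [Kik, Matrix.of_apply]
  split_ifs
  · rw [integral_add (integrable_const _) (integrable_coord _), integral_coord]
    simp
  · simp

lemma integrable_lmax (h : l ≤ n) (r : ℕ) (lam : ℝ) :
    Integrable (fun Z => lmax (Kik n l r lam Z)) (PG n) := by
  have := nonempty_Ix h
  have hb : Integrable (fun Z => ∑ I, ∑ J, |Kik n l r lam Z I J|) (PG n) :=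
    integrable_finsetSum _ fun I _ => integrable_finsetSum _ fun J _ =>
      (integrable_entry r lam I J).abs
  refine hb.mono' ?_ (Filter.Eventually.of_forall fun Z => ?_)
  · exact (continuous_lmax.comp (continuous_Kik r lam)).measurable.aestronglyMeasurable
  · exact abs_lmax_le _

lemma neighbours (k : ℕ) (I : Ix n l) :
    l.choose k * (n - l).choose k
      ≤ (Finset.univ.filter fun J : Ix n l => (symmDiff I.1 J.1).card = 2 * k).card := by
  classical
  have hI : (Finset.univ \ I.1 : Finset (Fin n)).card = n - l := by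
    rw [Finset.card_sdiff_of_subset (Finset.subset_univ _), I.2]
    simp
  have e0 : l.choose k = (Finset.powersetCard k I.1).card := by
    rw [Finset.card_powersetCard, I.2]
  have e : (n - l).choose k
      = (Finset.powersetCard k (Finset.univ \ I.1 : Finset (Fin n))).card := by
    rw [Finset.card_powersetCard, hI]
  rw [e0, e, ← Finset.card_product]
  have hprop : ∀ q ∈ (Finset.powersetCard k I.1) ×ˢ
      (Finset.powersetCard k (Finset.univ \ I.1 : Finset (Fin n))),
      ((I.1 \ q.1) ∪ q.2).card = l ∧ symmDiff I.1 ((I.1 \ q.1) ∪ q.2) = q.1 ∪ q.2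
        ∧ (q.1 ∪ q.2).card = 2 * k := by
    intro q hq
    simp only [Finset.mem_product, Finset.mem_powersetCard] at hq
    obtain ⟨⟨h1, h2⟩, h3, h4⟩ := hq
    have hd : ∀ x ∈ q.2, x ∉ I.1 := by
      intro x hx
      have := h3 hx
      simpa using this
    refine ⟨?_, ?_, ?_⟩
    · rw [Finset.card_union_of_disjoint, Finset.card_sdiff_of_subset h1, h2, h4, I.2]
      · have := Finset.card_le_card h1
        rw [h2, I.2] at this
        omega
      · rw [Finset.disjoint_left]
        intro x hx hx2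
        exact hd x hx2 (Finset.mem_sdiff.mp hx).1
    · ext x
      have e1 := @h1 x
      have e2 := hd x
      simp only [Finset.mem_symmDiff, Finset.mem_union, Finset.mem_sdiff]
      tauto
    · rw [Finset.card_union_of_disjoint, h2, h4]
      · ring
      · rw [Finset.disjoint_left]
        intro x hx hx2
        exact hd x hx2 (h1 hx)
  apply Finset.card_le_card_of_surjOn (fun J : Ix n l => (I.1 \ J.1, J.1 \ I.1))
  intro q hq
  obtain ⟨h1, h2, h3⟩ := hprop q hq
  have hq' := Finset.mem_coe.mp hq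
  simp only [Finset.mem_product, Finset.mem_powersetCard] at hq'
  obtain ⟨⟨g1, _⟩, g3, _⟩ := hq'
  refine ⟨⟨(I.1 \ q.1) ∪ q.2, h1⟩, ?_, ?_⟩
  · simp only [Finset.coe_filter, Finset.mem_univ, true_and, Set.mem_ofPred_eq]
    rw [h2, h3]
  · have hd : ∀ x ∈ q.2, x ∉ I.1 := by
      intro x hx
      have := g3 hx
      simpa using this
    apply Prod.ext
    · ext x
      have e1 := @g1 x
      have e2 := hd x
      simp only [Finset.mem_union, Finset.mem_sdiff]
      tauto
    · ext x
      have e1 := @g1 x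
      have e2 := hd x
      simp only [Finset.mem_union, Finset.mem_sdiff]
      tauto

/-- The constant test vector. -/
lemma EL_lower (h : l ≤ n) (k : ℕ) (lam : ℝ) (hlam : 0 ≤ lam) :
    lam * ((l.choose k : ℝ) * ((n - l).choose k : ℝ)) ≤ EL n l (2 * k) lam := by
  have hne := nonempty_Ix h
  set N : ℝ := (Fintype.card (Ix n l) : ℝ) with hN
  have hN0 : 0 < N := by
    rw [hN]
    exact_mod_cast Fintype.card_pos
  set v : Ix n l → ℝ := fun _ => (√N)⁻¹ with hv
  have hvv : dotProduct v v = 1 := by
    unfold dotProduct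
    simp only [hv, Finset.sum_const, Finset.card_univ, nsmul_eq_mul]
    rw [← mul_inv, Real.mul_self_sqrt hN0.le]
    exact mul_inv_cancel₀ hN0.ne'
  have h1 : ∀ Z, N⁻¹ * ∑ I, ∑ J, Kik n l (2 * k) lam Z I J ≤ lmax (Kik n l (2 * k) lam Z) := by
    intro Z
    refine le_trans (le_of_eq ?_) (le_lmax _ hvv)
    rw [quad_eq]
    simp only [hv]
    have : ∀ I J : Ix n l, (√N)⁻¹ * (Kik n l (2 * k) lam Z I J * (√N)⁻¹)
        = N⁻¹ * Kik n l (2 * k) lam Z I J := by
      intro I J
      have : (√N)⁻¹ * (√N)⁻¹ = N⁻¹ := by rw [← mul_inv, Real.mul_self_sqrt hN0.le]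
      rw [← this]; ring
    simp_rw [this, ← Finset.mul_sum]
  have h2 : ∫ Z, N⁻¹ * ∑ I, ∑ J, Kik n l (2 * k) lam Z I J ∂(PG n) ≤ EL n l (2 * k) lam := by
    apply integral_mono _ (integrable_lmax h _ _) h1
    exact (integrable_finsetSum _ fun I _ => integrable_finsetSum _ fun J _ =>
      integrable_entry _ lam I J).const_mul _
  refine le_trans ?_ h2
  rw [integral_const_mul, integral_finsetSum _ fun I _ => integrable_finsetSum _ fun J _ =>
      integrable_entry _ lam I J]
  simp_rw [integral_finsetSum Finset.univ fun J _ => integrable_entry _ lam _ J, integral_entry]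
  have h3 : ∀ I : Ix n l, lam * ((l.choose k : ℝ) * ((n - l).choose k : ℝ))
      ≤ ∑ J : Ix n l, if (symmDiff I.1 J.1).card = 2 * k then lam else 0 := by
    intro I
    rw [← Finset.sum_filter, Finset.sum_const, nsmul_eq_mul, mul_comm]
    apply mul_le_mul_of_nonneg_right _ hlam
    exact_mod_cast neighbours k I
  have h4 := Finset.sum_le_sum fun (I : Ix n l) (_ : I ∈ Finset.univ) => h3 I
  rw [Finset.sum_const, Finset.card_univ, nsmul_eq_mul, ← hN] at h4
  rw [inv_mul_eq_div, le_div_iff₀ hN0]
  linarith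

lemma exists_pair (k : ℕ) (hk : k ≤ l) (hn : l + k ≤ n) :
    ∃ I J : Ix n l, (symmDiff I.1 J.1).card = 2 * k := by
  obtain ⟨I⟩ := nonempty_Ix (n := n) (l := l) (by omega)
  have h := neighbours k I
  have h1 : 0 < l.choose k * (n - l).choose k :=
    Nat.mul_pos (Nat.choose_pos hk) (Nat.choose_pos (by omega))
  obtain ⟨J, hJ⟩ := Finset.card_pos.mp (lt_of_lt_of_le h1 h)
  exact ⟨I, J, (Finset.mem_filter.mp hJ).2⟩

lemma EL_zero_pos (k : ℕ) (hk0 : 1 ≤ k) (hk : k ≤ l) (hn : l + k ≤ n) :
    0 < EL n l (2 * k) 0 := by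
  obtain ⟨I, J, hIJ⟩ := exists_pair (n := n) k hk hn
  have hne : I ≠ J := by
    rintro rfl
    simp at hIJ
    omega
  set S := symmDiff I.1 J.1 with hS
  have key : ∀ (Z : Finset (Fin n) → ℝ) (s : ℝ), s ^ 2 = 1 →
      s * Z S ≤ lmax (Kik n l (2 * k) 0 Z) := by
    intro Z s hs
    set v : Ix n l → ℝ := fun K => if K = I then (√2)⁻¹ else if K = J then s * (√2)⁻¹ else 0
      with hv
    have h2 : (√2)⁻¹ * (√2)⁻¹ = (1 / 2 : ℝ) := by
      rw [← mul_inv, Real.mul_self_sqrt (by norm_num)]; norm_num
    have hsum : ∀ g : Ix n l → ℝ, ∑ K, v K * g K = (√2)⁻¹ * g I + s * (√2)⁻¹ * g J := by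
      intro g
      rw [Finset.sum_eq_add I J hne]
      · simp [hv, hne.symm]
      · intro K _ hK
        simp [hv, hK.1, hK.2]
      · intro h; exact absurd (Finset.mem_univ _) h
      · intro h; exact absurd (Finset.mem_univ _) h
    have hvI : v I = (√2)⁻¹ := by simp [hv]
    have hvJ : v J = s * (√2)⁻¹ := by simp [hv, hne.symm]
    have hvv : dotProduct v v = 1 := by
      unfold dotProduct
      rw [hsum v, hvI, hvJ]
      linear_combination (1 + s ^ 2) * h2 + (1 / 2) * hs
    refine le_trans (le_of_eq ?_) (le_lmax _ hvv)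
    unfold dotProduct
    rw [hsum]
    have hm : ∀ K, Matrix.mulVec (Kik n l (2 * k) 0 Z) v K
        = (√2)⁻¹ * Kik n l (2 * k) 0 Z K I + s * (√2)⁻¹ * Kik n l (2 * k) 0 Z K J := by
      intro K
      unfold Matrix.mulVec dotProduct
      rw [← hsum]
      apply Finset.sum_congr rfl
      intro T _
      ring
    rw [hm, hm]
    have e1 : Kik n l (2 * k) 0 Z I I = 0 := by
      simp only [Kik, Matrix.of_apply, symmDiff_self]
      rw [if_neg]
      simp
      omega
    have e2 : Kik n l (2 * k) 0 Z J J = 0 := by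
      simp only [Kik, Matrix.of_apply, symmDiff_self]
      rw [if_neg]
      simp
      omega
    have e3 : Kik n l (2 * k) 0 Z I J = Z S := by
      simp only [Kik, Matrix.of_apply]
      rw [if_pos hIJ, zero_add]
    have e4 : Kik n l (2 * k) 0 Z J I = Z S := by
      simp only [Kik, Matrix.of_apply]
      rw [symmDiff_comm, if_pos hIJ, zero_add]
    rw [e1, e2, e3, e4]
    linear_combination (-(2 * s * Z S)) * h2
  have hle : ∀ Z : Finset (Fin n) → ℝ, |Z S| ≤ lmax (Kik n l (2 * k) 0 Z) := by
    intro Z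
    rw [abs_le]
    have h1 := key Z 1 (by norm_num)
    have h2 := key Z (-1) (by norm_num)
    constructor <;> linarith
  refine lt_of_lt_of_le (integral_abs_coord_pos S) ?_
  exact integral_mono (integrable_coord S).abs (integrable_lmax (by omega) _ _) hle

/-- The moment bound. -/
lemma EL_upper (h : l ≤ n) (r : ℕ) (j : ℕ) (a : ℝ) (ha : 0 < a)
    (hF : ∀ I : Ix n l, F r (2 ^ (j + 1)) I I 0 ≤ a ^ (2 ^ (j + 1)) / (n.choose l : ℝ)) :
    EL n l r 0 ≤ 2 * a := by
  have hne := nonempty_Ix h
  have hcard : Fintype.card (Ix n l) = n.choose l := by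
    simp [Fintype.card_finset_len]
  have hc0 : (0 : ℝ) < (n.choose l : ℝ) := by exact_mod_cast Nat.choose_pos h
  have htr : ∀ Z : Finset (Fin n) → ℝ, Matrix.trace (Kik n l r 0 Z ^ (2 ^ (j + 1)))
      = ∑ I, (Kik n l r 0 Z ^ (2 ^ (j + 1))) I I := fun Z => rfl
  have hint : Integrable (fun Z => a + Matrix.trace (Kik n l r 0 Z ^ (2 ^ (j + 1)))
      / a ^ (2 ^ (j + 1) - 1)) (PG n) := by
    simp_rw [htr]
    exact (integrable_const _).add ((integrable_finsetSum _ fun I _ =>
      integrable_pow r _ I I).div_const _)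
  have h1 : EL n l r 0 ≤ ∫ Z, (a + Matrix.trace (Kik n l r 0 Z ^ (2 ^ (j + 1)))
      / a ^ (2 ^ (j + 1) - 1)) ∂(PG n) :=
    integral_mono (integrable_lmax h r 0) hint
      (fun Z => lmax_le_trace (Kik_symm r 0 Z) j ha)
  refine h1.trans ?_
  simp_rw [htr]
  rw [integral_add (integrable_const _) ((integrable_finsetSum _ fun I _ =>
      integrable_pow r _ I I).div_const _), integral_div,
    integral_finsetSum _ fun I _ => integrable_pow r _ I I]
  simp_rw [integral_pow_eq]
  have h2 : ∑ I : Ix n l, F r (2 ^ (j + 1)) I I 0 ≤ a ^ (2 ^ (j + 1)) := by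
    refine (Finset.sum_le_sum fun I _ => hF I).trans (le_of_eq ?_)
    rw [Finset.sum_const, Finset.card_univ, hcard, nsmul_eq_mul]
    field_simp
  have h3 : (∑ I : Ix n l, F r (2 ^ (j + 1)) I I 0) / a ^ (2 ^ (j + 1) - 1) ≤ a := by
    rw [div_le_iff₀ (by positivity)]
    refine h2.trans (le_of_eq ?_)
    rw [mul_comm, ← pow_succ]
    congr 1
    have : 0 < 2 ^ (j + 1) := by positivity
    omega
  simp only [integral_const, probReal_univ, one_smul]
  linarith

end

end Pool.Agent.Q214.KK
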