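import Mathlib

set_option autoImplicit false
open MeasureTheory ProbabilityTheory

namespace Pool.Agent.Q214.KK

noncomputable section

/-- Hermite polynomials (probabilists' normalisation). -/
def H : ℕ → Polynomial ℝ
  | 0 => 1
  | 1 => Polynomial.X
  | (j + 2) => Polynomial.X * H (j + 1) - Polynomial.C ((j : ℝ) + 1) * H j

lemma H_zero : H 0 = 1 := rfl
lemma H_one : H 1 = Polynomial.X := rfl
lemma H_succ_succ (j : ℕ) :
    H (j + 2) = Polynomial.X * H (j + 1) - Polynomial.C ((j : ℝ) + 1) * H j := rfl

/-- The three term recursion in the form used below. -/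
lemma X_mul_H (j : ℕ) : Polynomial.X * H j = H (j + 1) + Polynomial.C (j : ℝ) * H (j - 1) := by
  cases j with
  | zero => simp [H_zero, H_one]
  | succ j =>
    rw [H_succ_succ]
    push_cast
    simp

lemma derivative_H (j : ℕ) :
    Polynomial.derivative (H (j + 1)) = Polynomial.C ((j : ℝ) + 1) * H j := by
  induction j using Nat.strong_induction_on with
  | _ j ih =>
    cases j with
    | zero => simp [H_zero, H_one]
    | succ j =>
      rw [H_succ_succ, Polynomial.derivative_sub, Polynomial.derivative_mul,
        Polynomial.derivative_C_mul, ih j (Nat.lt_succ_self j), Polynomial.derivative_X]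
      cases j with
      | zero =>
        simp [H_zero, H_one]
        ring
      | succ i =>
        rw [ih i (by omega), H_succ_succ]
        simp only [map_add, Polynomial.C_1, Nat.cast_add, Nat.cast_one]
        ring

/-- Polynomials are integrable for the standard Gaussian. -/
lemma integrable_poly (P : Polynomial ℝ) :
    Integrable (fun x : ℝ => P.eval x) (gaussianReal 0 1) := by
  induction P using Polynomial.induction_on' with
  | add p q hp hq =>
    simp only [Polynomial.eval_add]
    exact hp.add hq
  | monomial n a =>
    simp only [Polynomial.eval_monomial]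
    apply Integrable.const_mul
    cases n with
    | zero => simp
    | succ n =>
      have h := (memLp_id_gaussianReal (μ := 0) (v := 1) ((n + 1 : ℕ) : NNReal))
      have h2 := h.integrable_norm_pow (by simp)
      refine h2.mono' (by fun_prop) (Filter.Eventually.of_forall fun x => ?_)
      simp

lemma integral_H_succ (j : ℕ) : ∫ x, (H (j + 1)).eval x ∂(gaussianReal 0 1) = 0 := by
  have hphi : ∀ x : ℝ, HasDerivAt (gaussianPDFReal 0 1) (- x * gaussianPDFReal 0 1 x) x := by
    intro x
    have h1 : HasDerivAt (fun y : ℝ => (√(2 * Real.pi * (1 : NNReal)))⁻¹ *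
        Real.exp (-(y - 0) ^ 2 / (2 * (1 : NNReal)))) ((√(2 * Real.pi * (1 : NNReal)))⁻¹ *
        (Real.exp (-(x - 0) ^ 2 / (2 * (1 : NNReal))) * (-x))) x := by
      apply HasDerivAt.const_mul
      apply HasDerivAt.exp
      have : HasDerivAt (fun y : ℝ => -(y - 0) ^ 2 / (2 * ((1 : NNReal) : ℝ)))
          (-(2 * (x - 0)) / (2 * ((1 : NNReal) : ℝ))) x := by
        have h0 : HasDerivAt (fun y : ℝ => (y - 0) ^ 2) (2 * (x - 0)) x := by
          have := ((hasDerivAt_id' x).sub_const 0).fun_pow 2
          convert! this using 1
          simp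
        exact (h0.neg).div_const _
      convert! this using 1
      simp
      ring
    have h2 : gaussianPDFReal 0 1 = (fun y : ℝ => (√(2 * Real.pi * (1 : NNReal)))⁻¹ *
        Real.exp (-(y - 0) ^ 2 / (2 * (1 : NNReal)))) := by
      ext y; simp [gaussianPDFReal]
    rw [h2]
    convert! h1 using 1
    ring
  have hint : ∀ P : Polynomial ℝ, Integrable (fun x => P.eval x * gaussianPDFReal 0 1 x) := by
    intro P
    have h := integrable_poly P
    rw [gaussianReal_of_var_ne_zero 0 one_ne_zero] at h
    rw [integrable_withDensity_iff_integrable_smul₀' (by fun_prop) (by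
      exact Filter.Eventually.of_forall fun x => gaussianPDF_lt_top)] at h
    simpa [toReal_gaussianPDF, mul_comm] using h
  have hder : ∀ x : ℝ, HasDerivAt (fun x => (H j).eval x * gaussianPDFReal 0 1 x)
      (-(H (j + 1)).eval x * gaussianPDFReal 0 1 x) x := by
    intro x
    have h1 := ((H j).hasDerivAt x).mul (hphi x)
    convert! h1 using 1
    have h2 := congrArg (Polynomial.eval x) (X_mul_H j)
    simp only [Polynomial.eval_mul, Polynomial.eval_X, Polynomial.eval_add,
      Polynomial.eval_C] at h2
    have h3 : (Polynomial.derivative (H j)).eval x = (j : ℝ) * (H (j - 1)).eval x := by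
      cases j with
      | zero => simp [H_zero]
      | succ i => rw [derivative_H]; simp
    rw [h3]
    linear_combination (gaussianPDFReal 0 1 x) * h2
  have h0 := integral_eq_zero_of_hasDerivAt_of_integrable hder
    (by simpa using (hint (H (j + 1))).neg) (hint (H j))
  rw [integral_gaussianReal_eq_integral_smul one_ne_zero]
  have : ∀ x, gaussianPDFReal 0 1 x • (H (j + 1)).eval x
      = - (-(H (j + 1)).eval x * gaussianPDFReal 0 1 x) := by
    intro x; simp [mul_comm]
  simp_rw [this]
  rw [integral_neg, h0, neg_zero]

end

end Pool.Agent.Q214.KK
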