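import Pool.Agent.Q214.KK.Herm

set_option autoImplicit false
open MeasureTheory ProbabilityTheory

namespace Pool.Agent.Q214.KK

noncomputable section

/-- Indices of the Kikuchi matrix. -/
abbrev Ix (n l : ℕ) := {K : Finset (Fin n) // K.card = l}

/-- The Kikuchi matrix. -/
def Kik (n l r : ℕ) (lam : ℝ) (Z : Finset (Fin n) → ℝ) : Matrix (Ix n l) (Ix n l) ℝ :=
  Matrix.of fun I J => if (symmDiff I.1 J.1).card = r then lam + Z (symmDiff I.1 J.1) else 0

/-- The Gaussian measure. -/
def PG (n : ℕ) : Measure (Finset (Fin n) → ℝ) := Measure.pi fun _ => gaussianReal 0 1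

instance (n : ℕ) : IsProbabilityMeasure (PG n) := by unfold PG; infer_instance

variable {n l : ℕ}

/-- The unit vector at `S`. -/
abbrev sg (S : Finset (Fin n)) : Finset (Fin n) → ℕ := Pi.single S 1

/-- Product of Hermite polynomials. -/
def HeL (L : Finset (Fin n) → ℕ) (Z : Finset (Fin n) → ℝ) : ℝ := ∏ S, (H (L S)).eval (Z S)

lemma HeL_zero (Z : Finset (Fin n) → ℝ) : HeL 0 Z = 1 := by simp [HeL, H_zero]

lemma HeL_split (L : Finset (Fin n) → ℕ) (Z : Finset (Fin n) → ℝ) (S : Finset (Fin n)) :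
    HeL L Z = (H (L S)).eval (Z S) * ∏ T ∈ Finset.univ.erase S, (H (L T)).eval (Z T) := by
  rw [HeL, Finset.mul_prod_erase _ (fun T => (H (L T)).eval (Z T)) (Finset.mem_univ S)]

lemma mul_HeL (L : Finset (Fin n) → ℕ) (Z : Finset (Fin n) → ℝ) (S : Finset (Fin n)) :
    Z S * HeL L Z = HeL (L + sg S) Z + (L S : ℝ) * HeL (L - sg S) Z := by
  rw [HeL_split L Z S, HeL_split (L + sg S) Z S, HeL_split (L - sg S) Z S]
  have h1 : ∏ T ∈ Finset.univ.erase S, (H ((L + sg S) T)).eval (Z T)
      = ∏ T ∈ Finset.univ.erase S, (H (L T)).eval (Z T) := by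
    apply Finset.prod_congr rfl
    intro T hT
    have : T ≠ S := Finset.ne_of_mem_erase hT
    simp [this]
  have h2 : ∏ T ∈ Finset.univ.erase S, (H ((L - sg S) T)).eval (Z T)
      = ∏ T ∈ Finset.univ.erase S, (H (L T)).eval (Z T) := by
    apply Finset.prod_congr rfl
    intro T hT
    have : T ≠ S := Finset.ne_of_mem_erase hT
    simp [this]
  rw [h1, h2]
  have h3 := congrArg (Polynomial.eval (Z S)) (X_mul_H (L S))
  simp only [Polynomial.eval_mul, Polynomial.eval_X, Polynomial.eval_add, Polynomial.eval_C] at h3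
  simp only [Pi.add_apply, Pi.sub_apply, Pi.single_eq_same]
  linear_combination (∏ T ∈ Finset.univ.erase S, (H (L T)).eval (Z T)) * h3

lemma integrable_HeL (L : Finset (Fin n) → ℕ) : Integrable (HeL L) (PG n) := by
  unfold HeL PG
  exact Integrable.fintype_prod (fun S => integrable_poly (H (L S)))

lemma integral_HeL (L : Finset (Fin n) → ℕ) :
    ∫ Z, HeL L Z ∂(PG n) = if L = 0 then 1 else 0 := by
  unfold HeL PG
  rw [integral_fintype_prod_eq_prod (fun S x => (H (L S)).eval x)]
  split_ifs with h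
  · subst h
    simp [H_zero]
  · have : ∃ S, L S ≠ 0 := by
      by_contra hh
      push Not at hh
      exact h (funext hh)
    obtain ⟨S, hS⟩ := this
    apply Finset.prod_eq_zero (Finset.mem_univ S)
    obtain ⟨j, hj⟩ := Nat.exists_eq_succ_of_ne_zero hS
    rw [hj]
    exact integral_H_succ j

/-- The Hermite coefficients of the entries of the powers of the noise matrix. -/
def F (r : ℕ) : ℕ → Ix n l → Ix n l → (Finset (Fin n) → ℕ) → ℝ
  | 0, I, J, L => if I = J ∧ L = 0 then 1 else 0
  | m + 1, I, J, L => ∑ K : Ix n l, if (symmDiff I.1 K.1).card = r then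
      F r m K J (L + sg (symmDiff I.1 K.1))
        + (L (symmDiff I.1 K.1) : ℝ) * F r m K J (L - sg (symmDiff I.1 K.1))
      else 0

lemma step_eq (r m : ℕ) (I J : Ix n l) (L : Finset (Fin n) → ℕ) (Z : Finset (Fin n) → ℝ) :
    HeL L Z * (Kik n l r 0 Z ^ (m + 1)) I J = ∑ K : Ix n l,
      if (symmDiff I.1 K.1).card = r then
        HeL (L + sg (symmDiff I.1 K.1)) Z * (Kik n l r 0 Z ^ m) K J
        + (L (symmDiff I.1 K.1) : ℝ) *
          (HeL (L - sg (symmDiff I.1 K.1)) Z * (Kik n l r 0 Z ^ m) K J)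
      else 0 := by
  rw [pow_succ', Matrix.mul_apply, Finset.mul_sum]
  apply Finset.sum_congr rfl
  intro K _
  unfold Kik
  simp only [Matrix.of_apply, zero_add]
  split_ifs with h
  · rw [← mul_assoc, mul_comm (HeL L Z), mul_HeL]
    ring
  · simp

theorem F_spec (r m : ℕ) : ∀ (I J : Ix n l) (L : Finset (Fin n) → ℕ),
    Integrable (fun Z => HeL L Z * (Kik n l r 0 Z ^ m) I J) (PG n) ∧
    ∫ Z, HeL L Z * (Kik n l r 0 Z ^ m) I J ∂(PG n) = F r m I J L := by
  induction m with
  | zero =>
    intro I J L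
    simp only [pow_zero, Matrix.one_apply, F]
    by_cases hIJ : I = J
    · simp only [hIJ, if_true, mul_one, true_and]
      exact ⟨integrable_HeL L, integral_HeL L⟩
    · simp [hIJ]
  | succ m ih =>
    intro I J L
    have hi : ∀ K : Ix n l, Integrable (fun Z => if (symmDiff I.1 K.1).card = r then
        HeL (L + sg (symmDiff I.1 K.1)) Z * (Kik n l r 0 Z ^ m) K J
        + (L (symmDiff I.1 K.1) : ℝ) *
          (HeL (L - sg (symmDiff I.1 K.1)) Z * (Kik n l r 0 Z ^ m) K J)
      else 0) (PG n) := by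
      intro K
      split_ifs with h
      · exact (ih K J _).1.add ((ih K J _).1.const_mul _)
      · simp
    constructor
    · simp_rw [step_eq]
      exact integrable_finsetSum _ fun K _ => hi K
    · simp_rw [step_eq]
      rw [integral_finsetSum _ fun K _ => hi K]
      simp only [F]
      apply Finset.sum_congr rfl
      intro K _
      split_ifs with h
      · rw [integral_add (ih K J _).1 ((ih K J _).1.const_mul _), integral_const_mul,
          (ih K J _).2, (ih K J _).2]
      · simp

lemma integrable_pow (r m : ℕ) (I J : Ix n l) :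
    Integrable (fun Z => (Kik n l r 0 Z ^ m) I J) (PG n) := by
  have h := (F_spec (n := n) (l := l) r m I J 0).1
  simpa [HeL_zero] using h

lemma integral_pow_eq (r m : ℕ) (I J : Ix n l) :
    ∫ Z, (Kik n l r 0 Z ^ m) I J ∂(PG n) = F r m I J 0 := by
  have h := (F_spec (n := n) (l := l) r m I J 0).2
  simpa [HeL_zero] using h

end

end Pool.Agent.Q214.KK
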